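import Pool.Agent.Helper76.P17.StC

/-!
# Project P17, module PLA: standard matrices and values on translated paths

The same as `Pool/Agent/Helper84/P13/M_PlA.lean`, `M_PlU.lean`, `M_Edg.lean` with `17` for `13`.
-/

set_option autoImplicit false

namespace Pool.Agent.Helper56.P17

open Pool.Agent.Helper14.CV (Homog EqC act Tl)
open Pool.Agent.Helper28.WK (SymP Tw evw Ok)
open Pool.Agent.Helper76.P17

/-- Two matrices with the same plane coordinates. -/
private def S17PlU : Prop := ∀ (μ r s : ℕ) (x : ZMod (17 ^ r)) (y : ZMod (17 ^ s)) (a b c d a' b' c' d' : ℤ),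
  Pl17 μ a b c d x y → Pl17 μ a' b' c' d' x y → ∃ α β γ δ : ℤ, α * δ - β * γ = 1 ∧
    (17 : ℤ) ^ (r + μ) ∣ β ∧ (17 : ℤ) ^ (s + 1) ∣ γ ∧
    a' = α * a + β * (17 * c) ∧ 17 ^ μ * b' = α * (17 ^ μ * b) + β * d ∧
    17 * c' = γ * a + δ * (17 * c) ∧ d' = γ * (17 ^ μ * b) + δ * d

theorem hPlA : S17PlA := by
  intro μ r s x y
  refine ⟨by ring, ?_, ?_⟩
  · rw [Int.cast_natCast, ZMod.natCast_zmod_val, Int.cast_one, mul_one]
  · set t : ZMod (17 ^ s) := 17 ^ (μ + 1) * ((x.val : ℕ) : ZMod (17 ^ s)) with ht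
    have hu : IsUnit (1 - t * y) := by
      refine IsNilpotent.isUnit_one_sub ⟨s, ?_⟩
      have h2 : (17 : ZMod (17 ^ s)) ^ s = 0 := by
        have := ZMod.natCast_self (17 ^ s)
        push_cast at this
        exact this
      have e : t * y = 17 * (17 ^ μ * ((x.val : ℕ) : ZMod (17 ^ s)) * y) := by
        rw [ht, pow_succ]
        ring
      rw [e, mul_pow, h2, zero_mul]
    have hinv := ZMod.mul_inv_of_unit _ hu
    set v : ZMod (17 ^ s) := (1 - t * y)⁻¹ with hv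
    have hY : ((rY17 μ x y : ℤ) : ZMod (17 ^ s)) = y * v := by
      rw [rY17, Int.cast_natCast, ZMod.natCast_zmod_val]
    have hd : ((1 + 17 ^ (μ + 1) * (x.val : ℤ) * rY17 μ x y : ℤ) : ZMod (17 ^ s)) = 1 + t * (y * v) := by
      rw [Int.cast_add, Int.cast_one, Int.cast_mul, hY, ht]
      push_cast
      ring
    rw [hY, hd]
    have e2 : y * (1 + t * (y * v)) - y * v = y * (1 - (1 - t * y) * v) := by ring
    rw [hinv, sub_self, mul_zero] at e2
    exact (sub_eq_zero.1 e2).symm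

private lemma dv (r : ℕ) (z : ZMod (17 ^ r)) (a b a' b' : ℤ) (h : (b : ZMod (17 ^ r)) = z * a)
    (h' : (b' : ZMod (17 ^ r)) = z * a') : (17 : ℤ) ^ r ∣ a * b' - a' * b := by
  have h1 : ((a * b' - a' * b : ℤ) : ZMod (17 ^ r)) = 0 := by
    push_cast
    rw [h, h']
    ring
  have h2 := (ZMod.intCast_zmod_eq_zero_iff_dvd (a * b' - a' * b) (17 ^ r)).1 h1
  push_cast at h2
  exact h2

private theorem hPlU : S17PlU := by
  intro μ r s x y a b c d a' b' c' d' ⟨h1, h2, h3⟩ ⟨h1', h2', h3'⟩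
  refine ⟨a' * d - 17 ^ (μ + 1) * b' * c, 17 ^ μ * (a * b' - a' * b), 17 * (d * c' - d' * c),
    a * d' - 17 ^ (μ + 1) * b * c', ?_, ?_, ?_, ?_, ?_, ?_, ?_⟩
  · rw [pow_succ] at h1 h1' ⊢
    linear_combination (a' * d' - 17 ^ μ * 17 * b' * c') * h1 + h1'
  · rw [pow_add, mul_comm ((17 : ℤ) ^ r)]
    exact mul_dvd_mul_left _ (dv r x a b a' b' h2 h2')
  · rw [pow_succ, mul_comm ((17 : ℤ) ^ s)]
    exact mul_dvd_mul_left _ (dv s y d c d' c' h3 h3')
  · rw [pow_succ] at h1 h1' ⊢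
    linear_combination (-a') * h1
  · rw [pow_succ] at h1 h1' ⊢
    linear_combination (-(17 ^ μ * b')) * h1
  · rw [pow_succ] at h1 h1' ⊢
    linear_combination (-(17 * c')) * h1
  · rw [pow_succ] at h1 h1' ⊢
    linear_combination (-d') * h1

private lemma vec_ne {e X Y u1 u2 : ℤ} (hu : u1 ≠ 0 ∨ u2 ≠ 0) :
    u1 + e * X * u2 ≠ 0 ∨ 17 * Y * u1 + (1 + e * 17 * X * Y) * u2 ≠ 0 := by
  by_contra h
  push Not at h
  obtain ⟨h1, h2⟩ := h
  have e2 : u2 = 0 := by linear_combination h2 - 17 * Y * h1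
  have e1 : u1 = 0 := by rw [e2] at h1; linear_combination h1
  rcases hu with hu | hu
  · exact hu e1
  · exact hu e2

theorem hEdg : S17Edg := by
  intro R _ μ r s G hG u1 u2 v1 v2 hu hv x y a b c d hP
  obtain ⟨α, β, γ, δ, hdet, hβ, hγ, h1, h2, h3, h4⟩ :=
    hPlU μ r s x y 1 (x.val : ℤ) (rY17 μ x y) (1 + 17 ^ (μ + 1) * (x.val : ℤ) * rY17 μ x y) a b c d
      (hPlA μ r s x y) hP
  obtain ⟨k, hk⟩ := hG.2 α β γ δ hdet (by exact_mod_cast hβ) (by exact_mod_cast hγ)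
  have key : ∀ w1 w2 : ℤ, (w1 ≠ 0 ∨ w2 ≠ 0) → G (a * w1 + 17 ^ μ * b * w2) (17 * c * w1 + d * w2)
      = G (w1 + 17 ^ μ * (x.val : ℤ) * w2)
        (17 * rY17 μ x y * w1 + (1 + 17 ^ (μ + 1) * (x.val : ℤ) * rY17 μ x y) * w2) + k := by
    intro w1 w2 hw
    have hne := vec_ne (e := 17 ^ μ) (X := (x.val : ℤ)) (Y := rY17 μ x y) hw
    have hD : (1 + 17 ^ μ * 17 * (x.val : ℤ) * rY17 μ x y) = 1 + 17 ^ (μ + 1) * (x.val : ℤ) * rY17 μ x y := by
      rw [pow_succ]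
    rw [hD] at hne
    have := hk _ _ hne
    rw [act] at this
    rw [← this]
    congr 1
    · linear_combination w1 * h1 + w2 * h2
    · linear_combination w1 * h3 + w2 * h4
  rw [edge17, key u1 u2 hu, key v1 v2 hv]
  abel

end Pool.Agent.Helper56.P17
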